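import Pool.Agent.Helper12.GM.Lib
import Pool.Agent.Helper12.GM.LibF

/-!
# Module CMP: rank one comparability of the hitting kernels
-/

open scoped ENNReal UpperHalfPlane MatrixGroups Topology
open UpperHalfPlane Real Filter

namespace Pool.Agent.Helper12.GM

variable {Γ : Type} [Group Γ]

/-- a word path which leaves the left sector meets the wall -/
theorem cmp_exit (X : Fuchs Γ) (μ : PMF Γ) (κ : ℝ)
    (hnoj : ∀ x s, μ s ≠ 0 → x ∈ Lft X κ → x * s ∉ Rgt X κ) :
    ∀ (l : List Γ), (∀ s ∈ l, μ s ≠ 0) → ∀ x ∈ Lft X κ, x * l.prod ∉ Lft X κ →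
      ∃ y ∈ Bnd X κ, Gr μ (Lft X κ) x y ≠ 0 := by
  intro l
  induction l with
  | nil =>
    intro _ x hx h
    rw [List.prod_nil, mul_one] at h
    exact absurd hx h
  | cons s l ih =>
    intro hl x hx h
    have hs : μ s ≠ 0 := hl s List.mem_cons_self
    have key : ∀ y, Gr μ (Lft X κ) (x * s) y ≠ 0 → Gr μ (Lft X κ) x y ≠ 0 := by
      intro y hy h0
      rw [Gr_mem μ y hx] at h0
      have h1 := (add_eq_zero.mp h0).2
      rw [ENNReal.tsum_eq_zero] at h1
      rcases mul_eq_zero.mp (h1 s) with h2 | h2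
      · exact hs h2
      · exact hy h2
    by_cases hxs : x * s ∈ Lft X κ
    · rw [List.prod_cons, ← mul_assoc] at h
      obtain ⟨y, hy, hy2⟩ := ih (fun s' hs' => hl s' (List.mem_cons_of_mem _ hs')) (x * s) hxs h
      exact ⟨y, hy, key y hy2⟩
    · have hr := hnoj x s hs hx
      refine ⟨x * s, ?_, key _ ?_⟩
      · unfold Lft at hxs
        unfold Rgt at hr
        simp only [Set.mem_ofPred_eq, not_lt] at hxs hr
        show |(X.M (x * s) • (I : ℍ)).re| ≤ κ * (X.M (x * s) • (I : ℍ)).im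
        rw [abs_le]
        constructor
        · linarith
        · exact hr
      · have := one_le_Gr μ (Lft X κ) (x * s)
        intro h0
        rw [h0] at this
        simp at this

theorem st_CMP (hKILL : ST_KILL) : ST_CMP := by
  intro Γ _ X Q μ K κ κ₂ Θ hD a ha
  obtain ⟨C', hC'⟩ := hKILL X Q μ K κ κ₂ Θ hD a ha
  have hW := hD.wk
  have hK := hW.one_le
  obtain ⟨L, hL⟩ : ∃ L : Set Γ, L = Lft X.toFuchs κ := ⟨_, rfl⟩
  have him : ∀ x : Γ, 0 < (X.M x • (I : ℍ)).im := fun x => UpperHalfPlane.im_pos _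
  -- points
  have h1B : (1 : Γ) ∈ Bnd X.toFuchs κ := by
    show |(X.M 1 • (I : ℍ)).re| ≤ κ * (X.M 1 • (I : ℍ)).im
    rw [X.act_one]
    simp only [UpperHalfPlane.I_re, UpperHalfPlane.I_im, abs_zero, mul_one]
    exact hD.κ0
  have hBR : ∀ x ∈ Bnd X.toFuchs κ, x ∉ Rgt X.toFuchs κ₂ := by
    intro x hx h
    have h1 : |(X.M x • (I : ℍ)).re| ≤ κ * (X.M x • (I : ℍ)).im := hx
    have h2 : κ₂ * (X.M x • (I : ℍ)).im < (X.M x • (I : ℍ)).re := h
    have h3 := le_abs_self (X.M x • (I : ℍ)).re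
    have h4 := mul_le_mul_of_nonneg_right hD.κκ (him x).le
    linarith
  have hBL : ∀ x ∈ Bnd X.toFuchs κ, x ∉ Lft X.toFuchs κ := by
    intro x hx h
    have h1 : |(X.M x • (I : ℍ)).re| ≤ κ * (X.M x • (I : ℍ)).im := hx
    have h2 : (X.M x • (I : ℍ)).re < -κ * (X.M x • (I : ℍ)).im := h
    have h3 := (abs_le.mp h1).1
    linarith
  have hLL : ∀ x ∈ Lft X.toFuchs κ₂, x ∈ Lft X.toFuchs κ := by
    intro x hx
    have h2 : (X.M x • (I : ℍ)).re < -κ₂ * (X.M x • (I : ℍ)).im := hx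
    have h4 := mul_le_mul_of_nonneg_right hD.κκ (him x).le
    show (X.M x • (I : ℍ)).re < -κ * (X.M x • (I : ℍ)).im
    linarith
  have haB : ∀ x ∈ Bnd X.toFuchs κ, a⁻¹ * x ∈ Lft X.toFuchs κ₂ := fun x hx =>
    hD.pos₂ a ha x (hBR x hx)
  have ha1 : a⁻¹ ∈ Lft X.toFuchs κ₂ := by
    have := haB 1 h1B
    rwa [mul_one] at this
  obtain ⟨c, C₁, hc, -, hlow⟩ := hD.low a⁻¹ ha1
  have hne : ∀ x y : Γ, Gr μ (Lft X.toFuchs κ) x y ≠ ∞ := fun x y => hW.Gr_ne_top _ x y
  have hGle : ∀ x y : Γ, (Gr μ (Lft X.toFuchs κ) x y).toReal ≤ 1 + K := by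
    intro x y
    have h1 : Gr μ (Lft X.toFuchs κ) x y ≤ ENNReal.ofReal (1 + K) :=
      (Gr_le_G0 μ _ x y).trans hW.G0_le
    exact ENNReal.toReal_le_of_le_ofReal (by linarith) h1
  refine ⟨fun x => (Gr μ (Lft X.toFuchs κ) (a⁻¹ * x) a⁻¹).toReal,
    fun y => (Gr μ (Lft X.toFuchs κ) a⁻¹ y).toReal, 1 + K + |C'|, ?_, ?_, ?_, ?_, ?_, ?_⟩
  · have := abs_nonneg C'
    linarith
  · intro x
    constructor
    · have h1 := (hlow (a⁻¹ * x) (haB x x.2)).1
      have h2 : Gr μ (Lft X.toFuchs κ) (a⁻¹ * x) a⁻¹ ≠ 0 := by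
        intro h0
        rw [h0] at h1
        have h3 := nonpos_iff_eq_zero.mp h1
        rw [ENNReal.ofReal_eq_zero] at h3
        have h4 := mul_pos hc (Real.exp_pos (-C₁ * Q.d a⁻¹ (a⁻¹ * x)))
        linarith
      exact ENNReal.toReal_pos h2 (hne _ _)
    · have h1 := hGle (a⁻¹ * x) a⁻¹
      have := abs_nonneg C'
      linarith
  · intro y
    exact ENNReal.toReal_nonneg
  · apply ENNReal.summable_toReal
    have h1 := exit_le_one μ (Lft X.toFuchs κ) a⁻¹
    refine ne_top_of_le_ne_top ENNReal.one_ne_top (le_trans ?_ h1)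
    have h2 : ∑' y : Bnd X.toFuchs κ, Gr μ (Lft X.toFuchs κ) a⁻¹ y =
        ∑' y : Γ, (Bnd X.toFuchs κ).indicator (fun y => Gr μ (Lft X.toFuchs κ) a⁻¹ y) y :=
      tsum_subtype _ _
    rw [h2]
    refine ENNReal.tsum_le_tsum fun y => ?_
    by_cases hy : y ∈ Bnd X.toFuchs κ
    · rw [Set.indicator_of_mem hy, Set.indicator_of_mem (hBL y hy)]
    · rw [Set.indicator_of_notMem hy]
      exact zero_le
  · obtain ⟨S, hS, hSinv, hSgen⟩ := hW.adm.gen
    have hmem : a ∈ Subgroup.closure S := by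
      rw [hSgen]
      exact Subgroup.mem_top a
    have hmem' : a ∈ Submonoid.closure (S ∪ S⁻¹) := by
      rw [← Subgroup.closure_toSubmonoid]
      exact hmem
    obtain ⟨l, hl, hlp⟩ := Submonoid.exists_list_of_mem_closure hmem'
    have hl' : ∀ s ∈ l, μ s ≠ 0 := by
      intro s hs
      have h1 : s ∈ S := by
        rcases hl s hs with h | h
        · exact h
        · have := hSinv _ (Set.mem_inv.mp h)
          rwa [inv_inv] at this
      exact (PMF.mem_support_iff μ s).mp (hS h1)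
    obtain ⟨y, hy, hy2⟩ := cmp_exit X.toFuchs μ κ hD.noj l hl' a⁻¹ (hLL _ ha1) (by
      rw [hlp, inv_mul_cancel]
      exact hBL 1 h1B)
    exact ⟨⟨y, hy⟩, ENNReal.toReal_pos hy2 (hne _ _)⟩
  · intro x y
    have hC0 := abs_nonneg C'
    have hkr : 0 ≤ kr X.toFuchs μ κ a x y := ENNReal.toReal_nonneg
    constructor
    · have h1 := Gr_chain μ (Lft X.toFuchs κ) (a⁻¹ * x) a⁻¹ y
      have h2 := ENNReal.toReal_mono (ENNReal.mul_ne_top hW.G0_ne_top (hne _ _)) h1
      rw [ENNReal.toReal_mul, ENNReal.toReal_mul] at h2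
      have h3 : (Gr μ Set.univ 1 1).toReal ≤ 1 + K :=
        ENNReal.toReal_le_of_le_ofReal (by linarith) hW.G0_le
      have h4 : (Gr μ Set.univ 1 1).toReal * kr X.toFuchs μ κ a x y ≤
          (1 + K + |C'|) * kr X.toFuchs μ κ a x y :=
        mul_le_mul_of_nonneg_right (by linarith) hkr
      exact h2.trans h4
    · have h1 := hC' x x.2 y y.2
      have h2 := ENNReal.toReal_mono (ENNReal.mul_ne_top ENNReal.ofReal_ne_top
        (ENNReal.mul_ne_top (hne _ _) (hne _ _))) h1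
      rw [ENNReal.toReal_mul, ENNReal.toReal_mul] at h2
      have h3 : (ENNReal.ofReal C').toReal ≤ 1 + K + |C'| := by
        rw [ENNReal.toReal_ofReal']
        apply max_le
        · have := le_abs_self C'
          linarith
        · linarith
      refine le_trans h2 (mul_le_mul_of_nonneg_right h3 ?_)
      exact mul_nonneg ENNReal.toReal_nonneg ENNReal.toReal_nonneg

end Pool.Agent.Helper12.GM
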